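import Mathlib
import Pool.Agent.Helper914_BI.Basic

/-!
# Barely independent families over the continuum and the reaping number
-/

set_option autoImplicit false

open Cardinal Set

namespace Pool.Agent.Results.MP_e8be47_lc.ContinuumReaping

open Pool.Agent.Helper914_BI

lemma aleph0_lt_cof_continuum : ℵ₀ < (𝔠 : Cardinal.{0}).ord.cof := by
  have := Cardinal.lt_cof_power (a := ℵ₀) (b := 2) le_rfl (by norm_num)
  simpa using this

theorem existsBI_continuum (h : reapingNumber = 𝔠) : ExistsBI 𝔠 := by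
  let X : Type := (𝔠 : Cardinal.{0}).ord.ToType
  have hX : #X = 𝔠 := by simp [X]
  have hle : #{B : Set ℕ | B.Infinite} ≤ #X := by
    rw [hX]
    exact (Cardinal.mk_set_le _).trans (by simp)
  have hne : Nonempty {B : Set ℕ | B.Infinite} := ⟨⟨Set.univ, Set.infinite_univ⟩⟩
  obtain ⟨f, hf⟩ : ∃ f : X → {B : Set ℕ | B.Infinite}, Function.Surjective f := by
    have := (Cardinal.le_def _ _).1 hle
    obtain ⟨g⟩ := this
    exact ⟨Function.invFun g, Function.invFun_surjective g.injective⟩
  have hsmall : ∀ a : X, #(Iio a) < #X := fun a => by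
    have := Cardinal.mk_Iio_lt (α := X) a (by simp [X])
    exact this
  have hex : ∀ a : X, ∃ S : Set ℕ, ∀ i : Iio a, Splits S (f i) := fun a =>
    exists_splits_of_lt (fun i : Iio a => (f i : Set ℕ)) (fun i => (f i).2)
      (by rw [h]; exact (hsmall a).trans_eq hX)
  choose x hx using hex
  suffices hgoal : ExistsBI #X by
    have hgoal' := hgoal
    rwa [hX] at hgoal'
  refine existsBI_of_sequence (X := X) (by rw [hX]; exact Cardinal.aleph0_lt_continuum) x ?_
  intro R hR
  obtain ⟨b, hb⟩ := hf ⟨R, hR⟩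
  have hsub : {a | ¬ Splits (x a) R} ⊆ Iic b := by
    intro a ha
    by_contra hab
    have hab' : b < a := not_le.1 hab
    have := hx a ⟨b, hab'⟩
    rw [hb] at this
    exact ha this
  refine lt_of_le_of_lt (Cardinal.mk_le_mk_of_subset hsub) ?_
  have h1 : Iic b = insert b (Iio b) := by ext; simp [le_iff_eq_or_lt]
  rw [h1]
  refine lt_of_le_of_lt Cardinal.mk_insert_le ?_
  have hinf : ℵ₀ ≤ #X := by rw [hX]; exact Cardinal.aleph0_lt_continuum.le
  exact Cardinal.add_lt_of_lt hinf (hsmall b) (Cardinal.one_lt_aleph0.trans_le hinf)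

/-- **Main result.** -/
theorem result :
    -- a barely independent family over `λ` (of uncountable cofinality) is the same as a
    -- `λ`-sequence of subsets of `ω` such that every infinite set is split by almost all of them
    (∀ lam : Cardinal.{0}, ℵ₀ < lam.ord.cof →
      (ExistsBI lam ↔ ∃ X : Type, #X = lam ∧ ∃ x : X → Set ℕ, SplittingSequence X x)) ∧
    -- over the continuum
    (reapingNumber = 𝔠 → ExistsBI 𝔠) ∧
    (ExistsBI 𝔠 → (𝔠 : Cardinal.{0}).ord.cof ≤ reapingNumber) ∧
    ((𝔠 : Cardinal.{0}).IsRegular → (ExistsBI 𝔠 ↔ reapingNumber = 𝔠)) ∧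
    -- the case `𝔠 = ω₂`
    ((𝔠 : Cardinal.{0}) = ℵ_ 2 → ((ExistsBI ℵ₁ ∨ ExistsBI 𝔠) ↔
      (reapingNumber = ℵ₁ → ExistsBI ℵ₁))) ∧
    ((𝔠 : Cardinal.{0}) = ℵ_ 2 → reapingNumber < splittingNumber →
      ¬ ExistsBI ℵ₁ ∧ ¬ ExistsBI 𝔠) := by
  have hreg1 : (ℵ₁ : Cardinal.{0}).ord.cof = ℵ₁ := Cardinal.isRegular_aleph_one.cof_ord
  have hcf1 : ℵ₀ < (ℵ₁ : Cardinal.{0}).ord.cof := by
    rw [hreg1]; exact Cardinal.aleph0_lt_aleph_one
  have key : ∀ lam : Cardinal.{0}, ℵ₀ < lam.ord.cof → ExistsBI lam →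
      splittingNumber ≤ lam ∧ lam.ord.cof ≤ reapingNumber := by
    intro lam hcf h
    obtain ⟨X, rfl, x, hx⟩ := exists_sequence hcf h
    exact of_sequence hcf x hx
  have hc : ExistsBI 𝔠 → (𝔠 : Cardinal.{0}).ord.cof ≤ reapingNumber := fun h =>
    (key _ aleph0_lt_cof_continuum h).2
  have hregc : (𝔠 : Cardinal.{0}).IsRegular → (ExistsBI 𝔠 ↔ reapingNumber = 𝔠) := fun hr =>
    ⟨fun h => le_antisymm reaping_le_continuum (by
      have := hc h; rwa [hr.cof_ord] at this), existsBI_continuum⟩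
  have hreg2 : (𝔠 : Cardinal.{0}) = ℵ_ 2 → (𝔠 : Cardinal.{0}).IsRegular := fun h => by
    rw [h]
    have := Cardinal.isRegular_aleph_succ (1 : Ordinal.{0})
    have h2 : Order.succ (1 : Ordinal.{0}) = 2 := by
      rw [← Ordinal.add_one_eq_succ]; norm_num
    rwa [h2] at this
  have h12 : (ℵ₁ : Cardinal.{0}) < ℵ_ 2 := Cardinal.aleph_lt_aleph.2 (by norm_num)
  refine ⟨fun lam hcf => ⟨fun h => exists_sequence hcf h, ?_⟩, existsBI_continuum, hc, hregc,
    ?_, ?_⟩
  · rintro ⟨X, rfl, x, hx⟩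
    exact existsBI_of_sequence (le_of_cof hcf) x hx
  · intro h2
    constructor
    · rintro (h | h) hr
      · exact h
      · have := (hregc (hreg2 h2)).1 h
        rw [hr, h2] at this
        exact absurd this h12.ne
    · intro h
      by_cases hr : reapingNumber = ℵ₁
      · exact Or.inl (h hr)
      · right
        apply existsBI_continuum
        apply le_antisymm reaping_le_continuum
        rw [h2]
        have h3 : ℵ₁ < reapingNumber := lt_of_le_of_ne aleph_one_le_reaping (Ne.symm hr)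
        have h4 : (ℵ_ 2 : Cardinal.{0}) = Order.succ ℵ₁ := by
          rw [← Cardinal.aleph_succ, ← Ordinal.add_one_eq_succ]; norm_num
        rw [h4]
        exact Order.succ_le_of_lt h3
  · intro h2 hrs
    constructor
    · intro h
      have := (key _ hcf1 h).1
      exact absurd (aleph_one_le_reaping.trans_lt hrs) (not_lt.2 this)
    · intro h
      have h3 := (key _ aleph0_lt_cof_continuum h)
      rw [(hreg2 h2).cof_ord] at h3
      exact absurd (h3.2.trans_lt hrs) (not_lt.2 h3.1)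

end Pool.Agent.Results.MP_e8be47_lc.ContinuumReaping
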